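import Pool.Agent.helper45.BR.Spec

/-!
# Project br: REC, a general lemma on iterates
-/

set_option autoImplicit false

open Complex Metric Set Filter Topology MeasureTheory MPS Pool.Agent.helper98.ILF
  Pool.Agent.helper16.Multibrot

noncomputable section

namespace BR

theorem REC_mont (hT : V3.TMO_stmt) (u : Ultrafilter ℕ) (f : ℕ → ℂ → ℂ) (U : Set ℂ)
    (hU : IsOpen U) (hd : ∀ m, DifferentiableOn ℂ (f m) U) (hb : ∀ m, ∀ z ∈ U, ‖f m z‖ ≤ 4) :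
    ∃ F : ℂ → ℂ, DifferentiableOn ℂ F U ∧ TendstoLocallyUniformlyOn f F u U ∧
      ∀ z ∈ U, ‖F z‖ ≤ 4 := by
  obtain ⟨F, hF1, hF2⟩ := hT u f U hU (by
    intro x hx
    obtain ⟨r, hr, hrU⟩ := Metric.isOpen_iff.1 hU x hx
    exact ⟨r, hr, 4, Filter.Eventually.of_forall fun m =>
      ⟨(hd m).mono hrU, fun y hy => hb m y (hrU hy)⟩⟩)
  refine ⟨F, hF1, hF2, fun z hz => ?_⟩
  have h1 : Tendsto (fun m => f m z) u (𝓝 (F z)) := hF2.tendsto_at hz
  exact le_of_tendsto h1.norm (Filter.Eventually.of_forall fun m => hb m z hz)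

theorem REC (hT : V3.TMO_stmt) : REC_stmt := by
  intro g U x C hU hUc hU4 hg hgm hx hCU hC hfr hnc L hLU hL ε hε N
  have hmt : ∀ k, MapsTo (g^[k]) U U := fun k => hgm.iterate k
  have hdi : ∀ k, DifferentiableOn ℂ (g^[k]) U := by
    intro k
    induction k with
    | zero => exact differentiableOn_id
    | succ k ih =>
      rw [Function.iterate_succ']
      exact hg.comp ih (hmt k)
  have hbd : ∀ k, ∀ z ∈ U, ‖g^[k] z‖ ≤ 4 := by
    intro k z hz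
    have h := hU4 (hmt k hz)
    rw [mem_ball_zero_iff] at h
    exact h.le
  -- the ultrafilter
  obtain ⟨u, hu1, hu2⟩ : ∃ u : Ultrafilter ℕ, (u : Filter ℕ) ≤ atTop ∧
      ∀ᶠ k in (u : Filter ℕ), g^[k] x ∈ C := by
    have : (atTop ⊓ 𝓟 {k | g^[k] x ∈ C} : Filter ℕ).NeBot := by
      rw [← Filter.frequently_iff_neBot]
      exact hfr
    refine ⟨Ultrafilter.of (atTop ⊓ 𝓟 {k | g^[k] x ∈ C}), ?_, ?_⟩
    · exact (Ultrafilter.of_le _).trans inf_le_left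
    · have h1 : ((Ultrafilter.of (atTop ⊓ 𝓟 {k | g^[k] x ∈ C}) : Ultrafilter ℕ) : Filter ℕ) ≤
          𝓟 {k | g^[k] x ∈ C} := (Ultrafilter.of_le _).trans inf_le_right
      exact h1 (mem_principal_self _)
  obtain ⟨ψ, hψ1, hψ2, hψ3⟩ := REC_mont hT u (fun k => g^[k]) U hU hdi hbd
  have hψx : ψ x ∈ C :=
    hC.isClosed.mem_of_tendsto (hψ2.tendsto_at hx) hu2
  have hψxU : ψ x ∈ U := hCU hψx
  have hncψ : ¬ ∀ z ∈ U, ψ z = ψ x := hnc u ψ (ψ x) hu1 hψ2 hψxU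
  -- the functions `χ_k`
  have hχ : ∀ k : ℕ, ∃ F : ℂ → ℂ, DifferentiableOn ℂ F U ∧
      TendstoLocallyUniformlyOn (fun k' => g^[k' - k]) F u U ∧ ∀ z ∈ U, ‖F z‖ ≤ 4 := fun k =>
    REC_mont hT u (fun k' => g^[k' - k]) U hU (fun m => hdi _) (fun m => hbd _)
  choose χ hχ1 hχ2 hχ3 using hχ
  have hχψ : ∀ k, ∀ z ∈ U, χ k (g^[k] z) = ψ z := by
    intro k z hz
    have h1 : Tendsto (fun k' => g^[k' - k] (g^[k] z)) u (𝓝 (χ k (g^[k] z))) :=
      (hχ2 k).tendsto_at (hmt k hz)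
    have h2 : Tendsto (fun k' => g^[k'] z) u (𝓝 (ψ z)) := hψ2.tendsto_at hz
    refine tendsto_nhds_unique (h1.congr' ?_) h2
    have h3 : ∀ᶠ k' in (u : Filter ℕ), k ≤ k' := hu1 (eventually_ge_atTop k)
    filter_upwards [h3] with k' hk'
    rw [← Function.iterate_add_apply, Nat.sub_add_cancel hk']
  obtain ⟨X, hX1, hX2, hX3⟩ := REC_mont hT u χ U hU hχ1 hχ3
  have hXψ : ∀ z ∈ U, ψ z ∈ U → X (ψ z) = ψ z := by
    intro z hz hψz
    have h1 : Tendsto (fun k => g^[k] z) u (𝓝[U] (ψ z)) :=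
      tendsto_nhdsWithin_iff.2 ⟨hψ2.tendsto_at hz, Filter.Eventually.of_forall fun k => hmt k hz⟩
    have h2 : Tendsto (fun k => χ k (g^[k] z)) u (𝓝 (X (ψ z))) :=
      hX2.tendsto_comp (hX1.continuousOn _ hψz) hψz h1
    have h3 : (fun k => χ k (g^[k] z)) = fun _ => ψ z := funext fun k => hχψ k z hz
    rw [h3] at h2
    exact tendsto_nhds_unique h2 tendsto_const_nhds
  -- `X = id` near `ψ x`
  have hψa : AnalyticOnNhd ℂ ψ U := hψ1.analyticOnNhd hU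
  have hopen : IsOpen (ψ '' (U ∩ ψ ⁻¹' U)) := by
    rcases hψa.is_constant_or_isOpen hUc.isPreconnected with ⟨w, hw⟩ | h
    · exfalso
      exact hncψ fun z hz => (hw z hz).trans (hw x hx).symm
    · exact h _ inter_subset_left (hψ1.continuousOn.isOpen_inter_preimage hU hU)
  have hXa : AnalyticOnNhd ℂ X U := hX1.analyticOnNhd hU
  have hXid : EqOn X id U := by
    refine hXa.eqOn_of_preconnected_of_eventuallyEq (analyticOnNhd_id) hUc.isPreconnected hψxU ?_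
    have h1 : ψ '' (U ∩ ψ ⁻¹' U) ∈ 𝓝 (ψ x) := hopen.mem_nhds ⟨x, ⟨hx, hψxU⟩, rfl⟩
    filter_upwards [h1] with w hw
    obtain ⟨z, ⟨hz1, hz2⟩, rfl⟩ := hw
    exact hXψ z hz1 hz2
  -- the end
  have hε2 : 0 < ε / 2 := by positivity
  have hu1' : ∀ᶠ k in (u : Filter ℕ), ∀ z ∈ L, dist (X z) (χ k z) < ε / 2 := by
    have h := (tendstoLocallyUniformlyOn_iff_forall_isCompact hU).1 hX2 L hLU hL
    exact Metric.tendstoUniformlyOn_iff.1 h (ε / 2) hε2
  obtain ⟨k, hk⟩ := hu1'.exists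
  have hu2' : ∀ᶠ k' in (u : Filter ℕ), ∀ z ∈ L, dist (χ k z) (g^[k' - k] z) < ε / 2 := by
    have h := (tendstoLocallyUniformlyOn_iff_forall_isCompact hU).1 (hχ2 k) L hLU hL
    exact Metric.tendstoUniformlyOn_iff.1 h (ε / 2) hε2
  have hu3 : ∀ᶠ k' in (u : Filter ℕ), k + N ≤ k' := hu1 (eventually_ge_atTop _)
  obtain ⟨k', hk1, hk2⟩ := (hu2'.and hu3).exists
  refine ⟨k' - k, by omega, fun z hz => ?_⟩
  have h1 := hk z hz
  have h2 := hk1 z hz
  rw [hXid (hLU hz)] at h1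
  have h3 : dist z (g^[k' - k] z) ≤ dist z (χ k z) + dist (χ k z) (g^[k' - k] z) :=
    dist_triangle _ _ _
  rw [← dist_eq_norm, dist_comm]
  have h4 : dist (id z) (χ k z) = dist z (χ k z) := rfl
  rw [h4] at h1
  linarith

end BR
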